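import Mathlib
import Pool.Agent.H76.GL.Defs

/-!
# A tame point keeps its distance from the pole
-/

set_option autoImplicit false

open Complex Filter Topology

namespace Pool.Agent.H76.GL

/-- if `|ζ| ≤ e^E` on the closed disc of radius `r` around `1 + it`, then the pole `1` is not in the
open disc: `r ≤ |t|` -/
theorem Tame.le_abs {r E t : ℝ} (h : Tame r E t) : r ≤ |t| := by
  by_contra hlt
  push Not at hlt
  -- near `1` the function `‖(s - 1) ζ(s)‖` tends to `1` and to `0`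
  have h1 : Tendsto (fun s : ℂ => ‖(s - 1) * riemannZeta s‖) (𝓝[≠] (1 : ℂ)) (𝓝 ‖(1 : ℂ)‖) :=
    (riemannZeta_residue_one).norm
  have hnear : ∀ᶠ s : ℂ in 𝓝[≠] (1 : ℂ), ‖s - (1 + t * I)‖ ≤ r := by
    have hc : Tendsto (fun s : ℂ => ‖s - (1 + t * I)‖) (𝓝 (1 : ℂ)) (𝓝 ‖(1 : ℂ) - (1 + t * I)‖) :=
      (Continuous.tendsto (by fun_prop) 1)
    have hv : ‖(1 : ℂ) - (1 + t * I)‖ = |t| := by
      have : (1 : ℂ) - (1 + t * I) = -((t : ℂ) * I) := by ring
      rw [this, norm_neg, norm_mul, Complex.norm_I, mul_one, Complex.norm_real, Real.norm_eq_abs]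
    rw [hv] at hc
    have := (hc.eventually (eventually_lt_nhds hlt))
    exact (this.filter_mono nhdsWithin_le_nhds).mono fun s hs => hs.le
  have h2 : Tendsto (fun s : ℂ => ‖(s - 1) * riemannZeta s‖) (𝓝[≠] (1 : ℂ)) (𝓝 0) := by
    have hup : Tendsto (fun s : ℂ => ‖s - 1‖ * Real.exp E) (𝓝[≠] (1 : ℂ)) (𝓝 0) := by
      have : Tendsto (fun s : ℂ => ‖s - 1‖ * Real.exp E) (𝓝 (1 : ℂ))
          (𝓝 (‖(1 : ℂ) - 1‖ * Real.exp E)) := (Continuous.tendsto (by fun_prop) 1)
      rw [sub_self, norm_zero, zero_mul] at this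
      exact this.mono_left nhdsWithin_le_nhds
    refine tendsto_of_tendsto_of_tendsto_of_le_of_le' tendsto_const_nhds hup
      (Eventually.of_forall fun s => norm_nonneg _) ?_
    filter_upwards [hnear] with s hs
    rw [norm_mul]
    exact mul_le_mul_of_nonneg_left (h s hs) (norm_nonneg _)
  have := tendsto_nhds_unique h1 h2
  rw [norm_one] at this
  exact one_ne_zero this

end Pool.Agent.H76.GL
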